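import Pool.Agent.helper82.T6.SpecL

set_option autoImplicit false

namespace Pool.Agent.T6

open Finset Pool.Agent.helper3.FT

theorem N1_le1 (b : ℝ) (v : V4) : |(v.1 : ℝ)| / b ^ 5 ≤ nrm b v := (le_max_left _ _).trans (le_max_left _ _)
theorem N1_le2 (b : ℝ) (v : V4) : |(v.2.1 : ℝ)| / b ≤ nrm b v := (le_max_right _ _).trans (le_max_left _ _)
theorem N1_le3 (b : ℝ) (v : V4) : |(v.2.2.1 : ℝ)| * b ≤ nrm b v := (le_max_left _ _).trans (le_max_right _ _)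
theorem N1_le4 (b : ℝ) (v : V4) : |(v.2.2.2 : ℝ)| * b ^ 5 ≤ nrm b v := (le_max_right _ _).trans (le_max_right _ _)

theorem N1_one {x : ℤ} (hx : x ≠ 0) : (1 : ℝ) ≤ |(x : ℝ)| := by
  have h := Int.one_le_abs hx
  have h2 : ((1 : ℤ) : ℝ) ≤ ((|x| : ℤ) : ℝ) := Int.cast_le.2 h
  rwa [Int.cast_one, Int.cast_abs] at h2

theorem N1 : N1_stmt := by
  intro b hb v w
  have hb0 : 0 < b := by linarith
  have hb5 : 0 < b ^ 5 := by positivity
  have hb51 : 1 ≤ b ^ 5 := one_le_pow₀ hb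
  refine ⟨?_, ?_, ?_, ?_, ?_, ?_⟩
  · refine le_trans ?_ (N1_le1 b v)
    positivity
  · unfold nrm
    refine max_le (max_le ?_ ?_) (max_le ?_ ?_)
    · have h1 : |((v + w).1 : ℝ)| ≤ |(v.1 : ℝ)| + |(w.1 : ℝ)| := by
        have e : ((v + w).1 : ℝ) = (v.1 : ℝ) + (w.1 : ℝ) := by rw [Prod.fst_add]; push_cast; ring
        rw [e]; exact abs_add_le _ _
      calc |((v + w).1 : ℝ)| / b ^ 5 ≤ (|(v.1 : ℝ)| + |(w.1 : ℝ)|) / b ^ 5 := by gcongr
        _ = |(v.1 : ℝ)| / b ^ 5 + |(w.1 : ℝ)| / b ^ 5 := add_div _ _ _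
        _ ≤ nrm b v + nrm b w := add_le_add (N1_le1 b v) (N1_le1 b w)
    · have h1 : |((v + w).2.1 : ℝ)| ≤ |(v.2.1 : ℝ)| + |(w.2.1 : ℝ)| := by
        have e : ((v + w).2.1 : ℝ) = (v.2.1 : ℝ) + (w.2.1 : ℝ) := by
          rw [Prod.snd_add, Prod.fst_add]; push_cast; ring
        rw [e]; exact abs_add_le _ _
      calc |((v + w).2.1 : ℝ)| / b ≤ (|(v.2.1 : ℝ)| + |(w.2.1 : ℝ)|) / b := by gcongr
        _ = |(v.2.1 : ℝ)| / b + |(w.2.1 : ℝ)| / b := add_div _ _ _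
        _ ≤ nrm b v + nrm b w := add_le_add (N1_le2 b v) (N1_le2 b w)
    · have h1 : |((v + w).2.2.1 : ℝ)| ≤ |(v.2.2.1 : ℝ)| + |(w.2.2.1 : ℝ)| := by
        have e : ((v + w).2.2.1 : ℝ) = (v.2.2.1 : ℝ) + (w.2.2.1 : ℝ) := by
          rw [Prod.snd_add, Prod.snd_add, Prod.fst_add]; push_cast; ring
        rw [e]; exact abs_add_le _ _
      calc |((v + w).2.2.1 : ℝ)| * b ≤ (|(v.2.2.1 : ℝ)| + |(w.2.2.1 : ℝ)|) * b := by gcongr
        _ = |(v.2.2.1 : ℝ)| * b + |(w.2.2.1 : ℝ)| * b := add_mul _ _ _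
        _ ≤ nrm b v + nrm b w := add_le_add (N1_le3 b v) (N1_le3 b w)
    · have h1 : |((v + w).2.2.2 : ℝ)| ≤ |(v.2.2.2 : ℝ)| + |(w.2.2.2 : ℝ)| := by
        have e : ((v + w).2.2.2 : ℝ) = (v.2.2.2 : ℝ) + (w.2.2.2 : ℝ) := by
          rw [Prod.snd_add, Prod.snd_add, Prod.snd_add]; push_cast; ring
        rw [e]; exact abs_add_le _ _
      calc |((v + w).2.2.2 : ℝ)| * b ^ 5 ≤ (|(v.2.2.2 : ℝ)| + |(w.2.2.2 : ℝ)|) * b ^ 5 := by gcongr
        _ = |(v.2.2.2 : ℝ)| * b ^ 5 + |(w.2.2.2 : ℝ)| * b ^ 5 := add_mul _ _ _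
        _ ≤ nrm b v + nrm b w := add_le_add (N1_le4 b v) (N1_le4 b w)
  · unfold nrm
    simp only [Prod.fst_neg, Prod.snd_neg, Int.cast_neg, abs_neg]
  · intro k
    have hk : 0 ≤ |(k : ℝ)| := abs_nonneg _
    unfold nrm
    simp only [Prod.smul_fst, Prod.smul_snd, smul_eq_mul, Int.cast_mul, abs_mul]
    rw [mul_max_of_nonneg _ _ hk, mul_max_of_nonneg _ _ hk, mul_max_of_nonneg _ _ hk, mul_div_assoc, mul_div_assoc,
      mul_assoc, mul_assoc]
  · intro hv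
    have h5 : 1 / b ^ 5 ≤ 1 := by rw [div_le_one hb5]; exact hb51
    by_cases h1 : v.1 = 0
    · by_cases h2 : v.2.1 = 0
      · by_cases h3 : v.2.2.1 = 0
        · have h4 : v.2.2.2 ≠ 0 := by
            intro h4
            apply hv
            exact Prod.ext h1 (Prod.ext h2 (Prod.ext h3 h4))
          refine h5.trans (le_trans ?_ (N1_le4 b v))
          exact one_le_mul_of_one_le_of_one_le (N1_one h4) hb51
        · refine h5.trans (le_trans ?_ (N1_le3 b v))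
          exact one_le_mul_of_one_le_of_one_le (N1_one h3) hb
      · refine le_trans ?_ (N1_le2 b v)
        have h6 : b ≤ b ^ 5 := le_self_pow₀ hb (by norm_num)
        calc 1 / b ^ 5 ≤ 1 / b := one_div_le_one_div_of_le hb0 h6
          _ ≤ |(v.2.1 : ℝ)| / b := by
            have := N1_one h2
            gcongr
    · refine le_trans ?_ (N1_le1 b v)
      have := N1_one h1
      gcongr
  · unfold nrm
    simp

end Pool.Agent.T6
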