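import Pool.Agent.helper82.T6.SpecL

set_option autoImplicit false

namespace Pool.Agent.T6

open Finset Pool.Agent.helper3.FT

theorem N2_smul (d r : ℕ) (v : V4) (k : ℤ) (h : InG d r v) : InG d r (k • v) := by
  refine ⟨?_, ?_⟩
  · have e : F1 (k • v).1 (k • v).2.1 (k • v).2.2.1 r 1 = k * F1 v.1 v.2.1 v.2.2.1 r 1 := by
      simp only [F1, Prod.smul_fst, Prod.smul_snd, smul_eq_mul]; ring
    rw [e]; exact Dvd.dvd.mul_left h.1 k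
  · have e : F2 (k • v).2.1 (k • v).2.2.1 (k • v).2.2.2 r 1 = k * F2 v.2.1 v.2.2.1 v.2.2.2 r 1 := by
      simp only [F2, Prod.smul_fst, Prod.smul_snd, smul_eq_mul]; ring
    rw [e]; exact Dvd.dvd.mul_left h.2 k

theorem N2 : N2_stmt := by
  refine ⟨?_, ?_, N2_smul, ?_, ?_, ?_, ?_⟩
  · intro d r
    refine ⟨?_, ?_⟩
    · have e : F1 (0 : V4).1 (0 : V4).2.1 (0 : V4).2.2.1 r 1 = 0 := by simp [F1]
      rw [e]; exact dvd_zero _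
    · have e : F2 (0 : V4).2.1 (0 : V4).2.2.1 (0 : V4).2.2.2 r 1 = 0 := by simp [F2]
      rw [e]; exact dvd_zero _
  · intro d r v w hv hw
    refine ⟨⟨?_, ?_⟩, ⟨?_, ?_⟩⟩
    · have e : F1 (v + w).1 (v + w).2.1 (v + w).2.2.1 r 1 = F1 v.1 v.2.1 v.2.2.1 r 1 + F1 w.1 w.2.1 w.2.2.1 r 1 := by
        simp only [F1, Prod.fst_add, Prod.snd_add]; ring
      rw [e]; exact dvd_add hv.1 hw.1
    · have e : F2 (v + w).2.1 (v + w).2.2.1 (v + w).2.2.2 r 1 = F2 v.2.1 v.2.2.1 v.2.2.2 r 1 + F2 w.2.1 w.2.2.1 w.2.2.2 r 1 := by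
        simp only [F2, Prod.fst_add, Prod.snd_add]; ring
      rw [e]; exact dvd_add hv.2 hw.2
    · have e : F1 (-v).1 (-v).2.1 (-v).2.2.1 r 1 = -F1 v.1 v.2.1 v.2.2.1 r 1 := by
        simp only [F1, Prod.fst_neg, Prod.snd_neg]; ring
      rw [e]; exact (dvd_neg).2 hv.1
    · have e : F2 (-v).2.1 (-v).2.2.1 (-v).2.2.2 r 1 = -F2 v.2.1 v.2.2.1 v.2.2.2 r 1 := by
        simp only [F2, Prod.fst_neg, Prod.snd_neg]; ring
      rw [e]; exact (dvd_neg).2 hv.2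
  · intro d r v
    refine ⟨?_, ?_⟩
    · have e : F1 ((d : ℤ) • v).1 ((d : ℤ) • v).2.1 ((d : ℤ) • v).2.2.1 r 1 = d * F1 v.1 v.2.1 v.2.2.1 r 1 := by
        simp only [F1, Prod.smul_fst, Prod.smul_snd, smul_eq_mul]; ring
      rw [e]; exact dvd_mul_right _ _
    · have e : F2 ((d : ℤ) • v).2.1 ((d : ℤ) • v).2.2.1 ((d : ℤ) • v).2.2.2 r 1 = d * F2 v.2.1 v.2.2.1 v.2.2.2 r 1 := by
        simp only [F2, Prod.smul_fst, Prod.smul_snd, smul_eq_mul]; ring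
      rw [e]; exact dvd_mul_right _ _
  · intro d d' r v hd h
    have hd' : (d' : ℤ) ∣ (d : ℤ) := Int.natCast_dvd_natCast.2 hd
    exact ⟨hd'.trans h.1, hd'.trans h.2⟩
  · intro d r r' v hr h
    have h1 : (d : ℤ) ∣ (r' : ℤ) - (r : ℤ) := Nat.modEq_iff_dvd.1 hr
    refine ⟨?_, ?_⟩
    · have e : F1 v.1 v.2.1 v.2.2.1 r' 1 = F1 v.1 v.2.1 v.2.2.1 r 1 +
          ((r' : ℤ) - (r : ℤ)) * (5 * v.1 * ((r' : ℤ) ^ 2 + r' * r + (r : ℤ) ^ 2) - 2 * v.2.1) := by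
        simp only [F1]; ring
      rw [e]; exact dvd_add h.1 (Dvd.dvd.mul_right h1 _)
    · have e : F2 v.2.1 v.2.2.1 v.2.2.2 r' 1 = F2 v.2.1 v.2.2.1 v.2.2.2 r 1 +
          ((r' : ℤ) - (r : ℤ)) * (v.2.1 * ((r' : ℤ) ^ 2 + r' * r + (r : ℤ) ^ 2) + 2 * v.2.2.1 * (r' + r)) := by
        simp only [F2]; ring
      rw [e]; exact dvd_add h.2 (Dvd.dvd.mul_right h1 _)
  · intro m d r v hm
    have hm0 : (m : ℤ) ≠ 0 := by exact_mod_cast (by omega : m ≠ 0)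
    have e1 : F1 ((m : ℤ) • v).1 ((m : ℤ) • v).2.1 ((m : ℤ) • v).2.2.1 r 1 = m * F1 v.1 v.2.1 v.2.2.1 r 1 := by
      simp only [F1, Prod.smul_fst, Prod.smul_snd, smul_eq_mul]; ring
    have e2 : F2 ((m : ℤ) • v).2.1 ((m : ℤ) • v).2.2.1 ((m : ℤ) • v).2.2.2 r 1 = m * F2 v.2.1 v.2.2.1 v.2.2.2 r 1 := by
      simp only [F2, Prod.smul_fst, Prod.smul_snd, smul_eq_mul]; ring
    unfold InG
    rw [e1, e2]
    push_cast
    rw [mul_dvd_mul_iff_left hm0, mul_dvd_mul_iff_left hm0]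

end Pool.Agent.T6
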