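import Pool.Agent.helper82.T6.SpecL

set_option autoImplicit false

namespace Pool.Agent.T6

open Finset Pool.Agent.helper3.FT

theorem N3_mod (d r r' : ℕ) (v : V4) (hr : r ≡ r' [MOD d]) (h : InG d r v) : InG d r' v := by
  have h1 : (d : ℤ) ∣ (r' : ℤ) - (r : ℤ) := Nat.modEq_iff_dvd.1 hr
  refine ⟨?_, ?_⟩
  · have e : F1 v.1 v.2.1 v.2.2.1 r' 1 = F1 v.1 v.2.1 v.2.2.1 r 1 +
        ((r' : ℤ) - (r : ℤ)) * (5 * v.1 * ((r' : ℤ) ^ 2 + r' * r + (r : ℤ) ^ 2) - 2 * v.2.1) := by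
      simp only [F1]; ring
    rw [e]; exact dvd_add h.1 (Dvd.dvd.mul_right h1 _)
  · have e : F2 v.2.1 v.2.2.1 v.2.2.2 r' 1 = F2 v.2.1 v.2.2.1 v.2.2.2 r 1 +
        ((r' : ℤ) - (r : ℤ)) * (v.2.1 * ((r' : ℤ) ^ 2 + r' * r + (r : ℤ) ^ 2) + 2 * v.2.2.1 * (r' + r)) := by
      simp only [F2]; ring
    rw [e]; exact dvd_add h.2 (Dvd.dvd.mul_right h1 _)

theorem N3 : N3_stmt := by
  intro d d' r r' r'' v hc h h' hr hr'
  have h1 := N3_mod d r r'' v hr.symm h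
  have h2 := N3_mod d' r' r'' v hr'.symm h'
  have hcop : IsCoprime (d : ℤ) (d' : ℤ) := Nat.isCoprime_iff_coprime.2 hc
  refine ⟨?_, ?_⟩
  · push_cast
    exact hcop.mul_dvd h1.1 h2.1
  · push_cast
    exact hcop.mul_dvd h1.2 h2.2

end Pool.Agent.T6
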