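import Pool.Agent.helper82.T6.SpecL

set_option autoImplicit false

namespace Pool.Agent.T6

open Finset Pool.Agent.helper3.FT

theorem N4_fin (b V : ℝ) (hb : 1 ≤ b) : {v : V4 | nrm b v ≤ V}.Finite := by
  have hb0 : 0 < b := by linarith
  have hb5 : 0 < b ^ 5 := by positivity
  have hb51 : 1 ≤ b ^ 5 := one_le_pow₀ hb
  set N : ℤ := ⌈V * b ^ 5⌉ with hN
  have key : ∀ (v : V4), nrm b v ≤ V → ∀ x : ℤ, |(x : ℝ)| ≤ V * b ^ 5 → x ∈ Set.Icc (-N) N := by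
    intro v _ x hx
    have h1 : |(x : ℝ)| ≤ (N : ℝ) := hx.trans (Int.le_ceil _)
    rw [abs_le] at h1
    constructor
    · have := h1.1
      exact_mod_cast this
    · exact_mod_cast h1.2
  refine Set.Finite.subset (Set.Finite.prod (Set.finite_Icc (-N) N) (Set.Finite.prod (Set.finite_Icc (-N) N)
    (Set.Finite.prod (Set.finite_Icc (-N) N) (Set.finite_Icc (-N) N)))) ?_
  intro v hv
  have hv' : nrm b v ≤ V := hv
  have h1 : |(v.1 : ℝ)| / b ^ 5 ≤ V := ((le_max_left _ _).trans (le_max_left _ _)).trans hv'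
  have h2 : |(v.2.1 : ℝ)| / b ≤ V := ((le_max_right _ _).trans (le_max_left _ _)).trans hv'
  have h3 : |(v.2.2.1 : ℝ)| * b ≤ V := ((le_max_left _ _).trans (le_max_right _ _)).trans hv'
  have h4 : |(v.2.2.2 : ℝ)| * b ^ 5 ≤ V := ((le_max_right _ _).trans (le_max_right _ _)).trans hv'
  have hV : 0 ≤ V := le_trans (by positivity) h1
  refine ⟨key v hv' _ ?_, key v hv' _ ?_, key v hv' _ ?_, key v hv' _ ?_⟩
  · rwa [div_le_iff₀ hb5] at h1
  · rw [div_le_iff₀ hb0] at h2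
    refine h2.trans ?_
    have h6 : b ≤ b ^ 5 := le_self_pow₀ hb (by norm_num)
    gcongr
  · have h5 : |(v.2.2.1 : ℝ)| ≤ |(v.2.2.1 : ℝ)| * b := le_mul_of_one_le_right (abs_nonneg _) hb
    have h6 : V ≤ V * b ^ 5 := le_mul_of_one_le_right hV hb51
    linarith
  · have h5 : |(v.2.2.2 : ℝ)| ≤ |(v.2.2.2 : ℝ)| * b ^ 5 := le_mul_of_one_le_right (abs_nonneg _) hb51
    have h6 : V ≤ V * b ^ 5 := le_mul_of_one_le_right hV hb51
    linarith

theorem N4 (hN1 : N1_stmt) (hN2 : N2_stmt) : N4_stmt := by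
  intro b d r hb hd
  have hd0 : (d : ℤ) ≠ 0 := by exact_mod_cast (by omega : d ≠ 0)
  set v0 : V4 := (d : ℤ) • ((1, 0, 0, 0) : V4) with hv0
  have h0 : v0 ≠ 0 := by
    intro h
    have h1 : v0.1 = 0 := by rw [h]; rfl
    rw [hv0] at h1
    simp only [Prod.smul_fst, smul_eq_mul, mul_one] at h1
    exact hd0 h1
  have hG0 : InG d r v0 := hN2.2.2.2.1 d r _
  obtain ⟨a, ⟨⟨ha0, haG⟩, haV⟩, hmin⟩ := Set.exists_min_image ({v : V4 | v ≠ 0 ∧ InG d r v} ∩ {v : V4 | nrm b v ≤ nrm b v0}) (nrm b)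
    ((N4_fin b (nrm b v0) hb).subset Set.inter_subset_right) ⟨v0, ⟨h0, hG0⟩, (show nrm b v0 ≤ nrm b v0 from le_rfl)⟩
  have hle : ∀ v : V4, v ≠ 0 → InG d r v → nrm b a ≤ nrm b v := by
    intro v hv hG
    by_cases h : nrm b v ≤ nrm b v0
    · exact hmin v ⟨⟨hv, hG⟩, h⟩
    · exact haV.trans (le_of_lt (not_le.1 h))
  have hL : IsLeast {x : ℝ | ∃ v : V4, v ≠ 0 ∧ InG d r v ∧ x = nrm b v} (nrm b a) := by
    refine ⟨⟨a, ha0, haG, rfl⟩, ?_⟩
    rintro x ⟨v, hv, hG, rfl⟩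
    exact hle v hv hG
  have hlam : lamb b d r = nrm b a := hL.csInf_eq
  refine ⟨⟨a, ha0, haG, hlam.symm⟩, ?_⟩
  intro v hv hG
  rw [hlam]
  exact hle v hv hG

end Pool.Agent.T6
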