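import Pool.Agent.helper82.T6.SpecL
import Pool.Agent.helper8.FT.P1

set_option autoImplicit false

namespace Pool.Agent.T6

open Finset Pool.Agent.helper3.FT

theorem NRV : NRV_stmt := by
  refine ⟨?_, ?_⟩
  · intro d r v hd h
    have hcop : IsCoprime (d : ℤ) (5 * 1) := by
      have h5 : IsCoprime (d : ℤ) ((5 : ℕ) : ℤ) := Nat.isCoprime_iff_coprime.2 hd
      simpa using h5
    exact dvd_Rf d v.1 v.2.1 v.2.2.1 v.2.2.2 r 1 hcop h.1 h.2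
  · intro b v hb
    have hb0 : 0 < b := by linarith
    have hb5 : 0 < b ^ 5 := by positivity
    set V := nrm b v with hV
    have h1 : |(v.1 : ℝ)| ≤ V * b ^ 5 := by
      have h : |(v.1 : ℝ)| / b ^ 5 ≤ V := (le_max_left _ _).trans (le_max_left _ _)
      rwa [div_le_iff₀ hb5] at h
    have h2 : |(v.2.1 : ℝ)| ≤ V * b := by
      have h : |(v.2.1 : ℝ)| / b ≤ V := (le_max_right _ _).trans (le_max_left _ _)
      rwa [div_le_iff₀ hb0] at h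
    have h3 : |(v.2.2.1 : ℝ)| ≤ V / b := by
      have h : |(v.2.2.1 : ℝ)| * b ≤ V := (le_max_left _ _).trans (le_max_right _ _)
      rwa [le_div_iff₀ hb0]
    have h4 : |(v.2.2.2 : ℝ)| ≤ V / b ^ 5 := by
      have h : |(v.2.2.2 : ℝ)| * b ^ 5 ≤ V := (le_max_right _ _).trans (le_max_right _ _)
      rwa [le_div_iff₀ hb5]
    have hV0 : 0 ≤ V := le_trans (by positivity) ((le_max_left _ _).trans (le_max_left _ _) : |(v.1 : ℝ)| / b ^ 5 ≤ V)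
    have hP : |(v.2.1 : ℝ) * (v.2.2.1 : ℝ)| ≤ V ^ 2 := by
      rw [abs_mul]
      calc |(v.2.1 : ℝ)| * |(v.2.2.1 : ℝ)| ≤ (V * b) * (V / b) := mul_le_mul h2 h3 (abs_nonneg _) (by positivity)
        _ = V ^ 2 := by field_simp
    have hQ : |(v.1 : ℝ) * (v.2.2.2 : ℝ)| ≤ V ^ 2 := by
      rw [abs_mul]
      calc |(v.1 : ℝ)| * |(v.2.2.2 : ℝ)| ≤ (V * b ^ 5) * (V / b ^ 5) := mul_le_mul h1 h4 (abs_nonneg _) (by positivity)
        _ = V ^ 2 := by field_simp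
    have hR : |(v.1 : ℝ) * (v.2.2.1 : ℝ) ^ 5| ≤ V ^ 6 := by
      rw [abs_mul, abs_pow]
      calc |(v.1 : ℝ)| * |(v.2.2.1 : ℝ)| ^ 5 ≤ (V * b ^ 5) * (V / b) ^ 5 :=
            mul_le_mul h1 (pow_le_pow_left₀ (abs_nonneg _) h3 5) (by positivity) (by positivity)
        _ = V ^ 6 := by field_simp
    have hT : |(v.2.1 : ℝ) ^ 5 * (v.2.2.2 : ℝ)| ≤ V ^ 6 := by
      rw [abs_mul, abs_pow]
      calc |(v.2.1 : ℝ)| ^ 5 * |(v.2.2.2 : ℝ)| ≤ (V * b) ^ 5 * (V / b ^ 5) :=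
            mul_le_mul (pow_le_pow_left₀ (abs_nonneg _) h2 5) h4 (by positivity) (by positivity)
        _ = V ^ 6 := by field_simp
    have e : (RV v : ℝ) = ((v.2.1 : ℝ) * v.2.2.1) ^ 3 + 75 * ((v.2.1 : ℝ) * v.2.2.1) ^ 2 * ((v.1 : ℝ) * v.2.2.2) -
        625 * ((v.2.1 : ℝ) * v.2.2.1) * ((v.1 : ℝ) * v.2.2.2) ^ 2 + 3125 * ((v.1 : ℝ) * v.2.2.2) ^ 3 -
        8 * ((v.1 : ℝ) * v.2.2.1 ^ 5 + (v.2.1 : ℝ) ^ 5 * v.2.2.2) := by
      unfold RV Rf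
      push_cast
      ring
    rw [e]
    generalize (v.2.1 : ℝ) * (v.2.2.1 : ℝ) = P at *
    generalize (v.1 : ℝ) * (v.2.2.2 : ℝ) = Q at *
    generalize (v.1 : ℝ) * (v.2.2.1 : ℝ) ^ 5 = R at *
    generalize (v.2.1 : ℝ) ^ 5 * (v.2.2.2 : ℝ) = T at *
    have hV2 : 0 ≤ V ^ 2 := by positivity
    have c1 : |P ^ 3| ≤ V ^ 6 := by
      rw [abs_pow]
      calc |P| ^ 3 ≤ (V ^ 2) ^ 3 := pow_le_pow_left₀ (abs_nonneg _) hP 3
        _ = V ^ 6 := by ring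
    have c2 : |P ^ 2 * Q| ≤ V ^ 6 := by
      rw [abs_mul, abs_pow]
      calc |P| ^ 2 * |Q| ≤ (V ^ 2) ^ 2 * V ^ 2 := mul_le_mul (pow_le_pow_left₀ (abs_nonneg _) hP 2) hQ (abs_nonneg _) (by positivity)
        _ = V ^ 6 := by ring
    have c3 : |P * Q ^ 2| ≤ V ^ 6 := by
      rw [abs_mul, abs_pow]
      calc |P| * |Q| ^ 2 ≤ V ^ 2 * (V ^ 2) ^ 2 := mul_le_mul hP (pow_le_pow_left₀ (abs_nonneg _) hQ 2) (by positivity) (by positivity)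
        _ = V ^ 6 := by ring
    have c4 : |Q ^ 3| ≤ V ^ 6 := by
      rw [abs_pow]
      calc |Q| ^ 3 ≤ (V ^ 2) ^ 3 := pow_le_pow_left₀ (abs_nonneg _) hQ 3
        _ = V ^ 6 := by ring
    have d1 := abs_le.1 c1
    have d2 := abs_le.1 c2
    have d3 := abs_le.1 c3
    have d4 := abs_le.1 c4
    have d5 := abs_le.1 hR
    have d6 := abs_le.1 hT
    rw [abs_le]
    constructor <;> nlinarith [d1.1, d1.2, d2.1, d2.2, d3.1, d3.2, d4.1, d4.2, d5.1, d5.2, d6.1, d6.2]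

end Pool.Agent.T6
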