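import Pool.Agent.helper82.T6.SpecL

set_option autoImplicit false

namespace Pool.Agent.T6

open Finset Pool.Agent.helper3.FT

theorem P1_card (y J : ℕ) : J * (pb y J).card ≤ 4 * 2 ^ J := by
  have h1 : (2 ^ J) ^ (pb y J).card ≤ ∏ p ∈ pb y J, p := by
    apply Finset.pow_card_le_prod
    intro p hp
    exact (Finset.mem_Ico.1 (Finset.mem_filter.1 hp).1).1
  have h2 : ∏ p ∈ pb y J, p ≤ primorial (2 ^ (J + 1)) := by
    unfold primorial
    apply Finset.prod_le_prod_of_subset_of_one_le'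
    · intro p hp
      obtain ⟨h3, h4, _⟩ := Finset.mem_filter.1 hp
      refine Finset.mem_filter.2 ⟨Finset.mem_range.2 ?_, h4⟩
      have := (Finset.mem_Ico.1 h3).2
      omega
    · intro p hp _
      exact (Finset.mem_filter.1 hp).2.one_lt.le
  have h3 := primorial_le_four_pow (2 ^ (J + 1))
  have h4 : (2 : ℕ) ^ (J * (pb y J).card) ≤ 2 ^ (4 * 2 ^ J) := by
    calc (2 : ℕ) ^ (J * (pb y J).card) = (2 ^ J) ^ (pb y J).card := by rw [pow_mul]
      _ ≤ 4 ^ (2 ^ (J + 1)) := h1.trans (h2.trans h3)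
      _ = 2 ^ (4 * 2 ^ J) := by
        rw [show (4 : ℕ) = 2 ^ 2 by norm_num, ← pow_mul]
        congr 1
        rw [pow_succ]
        ring
  exact (Nat.pow_le_pow_iff_right (by norm_num)).1 h4

theorem P1 : P1_stmt := by
  intro y J hJ
  have h1 : ∑ p ∈ pb y J, (1 : ℝ) / p ≤ ∑ p ∈ pb y J, (1 : ℝ) / 2 ^ J := by
    apply Finset.sum_le_sum
    intro p hp
    have h2 : 2 ^ J ≤ p := (Finset.mem_Ico.1 (Finset.mem_filter.1 hp).1).1
    have h3 : (2 : ℝ) ^ J ≤ p := by exact_mod_cast h2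
    exact one_div_le_one_div_of_le (by positivity) h3
  refine h1.trans ?_
  rw [Finset.sum_const, nsmul_eq_mul]
  have h4 : ((J * (pb y J).card : ℕ) : ℝ) ≤ ((4 * 2 ^ J : ℕ) : ℝ) := by exact_mod_cast P1_card y J
  push_cast at h4
  have hJ0 : (0 : ℝ) < J := by exact_mod_cast hJ
  rw [mul_one_div, div_le_div_iff₀ (by positivity) hJ0]
  linarith

end Pool.Agent.T6
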