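import Pool.Agent.helper82.T6.SpecL

set_option autoImplicit false

namespace Pool.Agent.T6

open Finset Pool.Agent.helper3.FT

theorem VVP (hNRV : NRV_stmt) : VVP_stmt := by
  classical
  intro b y u s hb hy hs p hp
  unfold SU at hp
  rw [mem_filter] at hp
  obtain ⟨hPR, hGd, hlam⟩ := hp
  unfold PR at hPR
  rw [mem_filter] at hPR
  obtain ⟨hm, hlt, hcop, hrgh⟩ := hPR
  have hvv : vv b p.1 p.2 = hGd.choose := by
    unfold vv
    rw [dif_pos hGd]
  obtain ⟨hG, hn, hR⟩ := hGd.choose_spec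
  rw [← hvv] at hG hn hR
  have h5 : Nat.Coprime p.1 5 := by
    rw [Nat.coprime_comm]
    refine (Nat.Prime.coprime_iff_not_dvd (by norm_num)).2 ?_
    intro h
    have := hrgh 5 (by norm_num) h
    omega
  have hs2 : 0 < s ^ 2 := by positivity
  refine ⟨hG, hn, hR, ?_, ?_, ?_, hNRV.1 p.1 p.2 _ h5 hG⟩
  · rw [hn, le_div_iff₀ hs2]
    exact hlam
  · intro h0
    apply hR
    rw [h0]
    simp [RV, Rf]
  · intro q hq hqd
    refine ⟨hq, hrgh q hq hqd, p.2, Nat.Coprime.coprime_dvd_right hqd hcop, ?_⟩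
    have hqd' : (q : ℤ) ∣ (p.1 : ℤ) := Int.natCast_dvd_natCast.2 hqd
    exact ⟨hqd'.trans hG.1, hqd'.trans hG.2⟩

end Pool.Agent.T6
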